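import Pool.Agent.Q46.SL.Tools
import Pool.Agent.Q46.SL.Dist

/-!
# Almost primes `η + x` in the intervals `(n ^ 2, n ^ 2 + 1 + φ(n)]`, at the values of bilinear forms and distances over prime fields

The problem asks for a prime `n ^ 2 + x` with `x ≤ 1 + φ(n)`. Take a prime `p` between `φ(n) / 2` and `φ(n)`, `η = n ^ 2 ≤ p ^
3`. For every `n` there are many `x < p` such that `η + x` has at most `R` prime factors, among the distances of arbitrary sets
over the field with `p` elements.

Let `p` be a large prime and let `A`, `B` be ARBITRARY sets of vectors with `d` coordinates in the field with `p` elements,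
`|A| |B| ≥ p ^ (d + ε)` (or more, if the values are restricted to a short interval). For all functions `f`, `g` many pairs `(a, b)` in
`A × B` are such that the least residue of `c a·b + f(a) + g(b)` has the property; for suitable `f`, `g` these are the distances
`∑ (a_i - b_i)²`. Here the property is: `η + x` has at most `R` prime factors, all larger than `p ^ κ`.

In addition the numbers avoid arbitrary residue classes, at most `m` classes `E q` modulo each prime `q ≤ z`, as long as there is no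
local obstruction; `m = 0` is the case without classes. The exponent `κ`, the number `R` and the constant `cc` do not depend on the
classes.

Design and proof: helper46 (modules `Pool.Agent.Q46.SV.*`, `Pool.Agent.Q46.SL.*`): the vectors of the residues in question are
equidistributed modulo all small integers with a power saving, by bounds for exponential sums; the fundamental lemma of the
sieve is applied to the vectors.
-/

set_option autoImplicit false

namespace Pool.Agent.Results.MP_36c81c_nt.DistancesOverPrimeFields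

open Finset Polynomial
open Pool.Agent.Q46.SL hiding Almost

/-- `n` is not zero and has at most `R` prime factors (counted with multiplicity), all larger than `z` -/
def Almost (z : ℝ) (R : ℕ) (n : ℤ) : Prop :=
  n ≠ 0 ∧ n.natAbs.primeFactorsList.length ≤ R ∧ ∀ q : ℕ, q.Prime → (q : ℤ) ∣ n → z < q

/-- `x` is positive, `η + x` has at most `R` prime factors, all larger than `z`, and `x` avoids the classes `E q`, `q ≤ z` -/
def Good (η : ℤ) (z : ℝ) (R : ℕ) (E : ℕ → Finset ℕ) (x : ℤ) : Prop :=
  0 < x ∧ Almost z R (η + x) ∧ ∀ q : ℕ, q.Prime → (q : ℝ) ≤ z → (x % q).toNat ∉ E q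

/-- `E q` has at most `m` elements, and some residue `a` outside `E q` makes the number `η + x` (`a` in the place of `x`) not divisible by `q` -/
def Adm (η : ℤ) (m : ℕ) (E : ℕ → Finset ℕ) : Prop :=
  ∀ q : ℕ, q.Prime → (E q).card ≤ m ∧ ∃ a < q, a ∉ E q ∧ ¬ (q : ℤ) ∣ η + a

/-- the polynomials and the classes -/
noncomputable def sysE (η : ℤ) (m : ℕ) (E : ℕ → Finset ℕ) (hE : Adm η m E) : PE 1 m 1 where
  f := ![C η + X]
  E := E
  deg := by
    rw [Fin.sum_univ_one]
    simp only [Matrix.cons_val]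
    have d0 : (C η + X : ℤ[X]).natDegree ≤ 1 := by compute_degree
    omega
  adm := by
    intro q hq
    obtain ⟨h1, a, ha, haE, h2⟩ := hE q hq
    refine ⟨h1, a, ha, haE, fun j => ?_⟩
    fin_cases j
    · simpa using h2

lemma good_of {η : ℤ} {m B : ℕ} {E : ℕ → Finset ℕ} (hE : Adm η m E) {κ M : ℝ} (hM : (2 : ℝ) ≤ M)
    (hh : |(η : ℝ)| ≤ M ^ B) {x : ℤ} (h : Near (B + 1) (sysE η m E hE) κ M x) (hx : (x : ℝ) ≤ M) :
    Good η (M ^ κ) ⌊((B + 1 : ℕ) + (1 : ℕ) + 1 : ℝ) / κ⌋₊ E x := by
  obtain ⟨h0, h12⟩ := h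
  obtain ⟨h1, h2⟩ := h12 (by
    intro j
    have hB : (1 : ℝ) ≤ M ^ B := one_le_pow₀ (by linarith)
    have hBM : (2 : ℝ) * M ^ B ≤ M ^ (B + 1) := by
      rw [pow_succ]
      nlinarith
    have k0 := hh
    fin_cases j
    · refine cb_mono (cb_add (cb_C η) (cb_X)) ?_
      push_cast
      norm_num
      linarith) hx
  refine ⟨h0, ?_, h2⟩
  · simpa [sysE, Almost, Pool.Agent.Q46.SL.Almost] using h1 0

open Classical in
/-- the number of pairs `z` in `S` for which the least residue `y` of `F z` satisfies `u ≤ y < u + N` and has the property `P` -/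
noncomputable def hits {p : ℕ} {V : Type} (S : Finset (V × V)) (F : V × V → ZMod p) (u N : ℕ) (P : ℤ → Prop) : ℕ :=
  (S.filter (fun z => (u ≤ (F z).val ∧ (F z).val < u + N) ∧ P (F z).val)).card

/-- `η + x` is almost prime at the values `x` of bilinear forms (and of squared distances) of the elements of arbitrary large sets of vectors. -/
theorem result (B m : ℕ) (ε : ℝ) (hε : 0 < ε) (hε1 : ε ≤ 1) :
    ∃ κ : ℝ, 0 < κ ∧ ∃ cc : ℝ, 0 < cc ∧ ∃ R p₀ : ℕ, ∀ p : ℕ, p₀ ≤ p → p.Prime → ∀ η : ℤ, |(η : ℝ)| ≤ (p : ℝ) ^ B → ∀ E : ℕ → Finset ℕ, Adm η m E → ∀ (d : ℕ) (A B : Finset (Fin d → ZMod p)) (f g : (Fin d → ZMod p) → ZMod p) (c : ZMod p), c ≠ 0 →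
      ∀ u N : ℕ, u + N ≤ p → (p : ℝ) ^ ε ≤ N → (p : ℝ) ^ (d + 2 + ε) ≤ (N : ℝ) ^ 2 * A.card * B.card →
      cc * ((N : ℝ) * A.card * B.card / p) / Real.log p ^ (1 * (m + 1)) ≤
        hits (A ×ˢ B) (fun z => c * ∑ i, z.1 i * z.2 i + f z.1 + g z.2) u N (Good η ((p : ℝ) ^ κ) R E) := by
  classical
  obtain ⟨κ, hκ, cc, hcc, p₀, h⟩ := Pool.Agent.Q46.SL.bilinear (Near (B + 1) : PE 1 m 1 → ℝ → ℝ → ℤ → Prop)
    (lg (m + 1)) (fun r _ => csN 1 m 1 (B + 1) r) ε hε hε1
  refine ⟨κ, hκ, cc, hcc, ⌊((B + 1 : ℕ) + (1 : ℕ) + 1 : ℝ) / κ⌋₊, max 2 p₀, ?_⟩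
  intro p hp hpp η t0 E hE d A B f g c hc u N hu hN hAB
  have hpr : (2 : ℝ) ≤ p := by exact_mod_cast (le_max_left _ _).trans hp
  have : Fact p.Prime := ⟨hpp⟩
  have key := h p ((le_max_right _ _).trans hp) (sysE η m E hE) hpp d A B f g c hc u N hu hN hAB
  refine le_trans (cnt le_rfl (by positivity) (log0 p) _ _) (key.trans ?_)
  unfold hits Pool.Agent.Q46.SL.good1
  refine Nat.cast_le.2 ?_
  apply card_le_card
  intro z hz
  rw [mem_filter, mem_Ico] at hz
  rw [mem_filter]
  exact ⟨hz.1, hz.2.1, good_of hE hpr t0 hz.2.2 (by exact_mod_cast (ZMod.val_lt _).le)⟩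

end Pool.Agent.Results.MP_36c81c_nt.DistancesOverPrimeFields
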