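import Pool.Agent.Q48.RD.Two

/-!
# Pairs of almost primes with every even difference in the interval `(n ^ 2, n ^ 2 + 1 + φ (n)]`, with restricted digits

Let `g ≥ 2` be a base and `K` a large number of digits. For every `i < K` let `A i` be an arbitrary set of digits, such that the number
`|A 0| ⋯ |A (K - 1)|` of the integers `t < g ^ K` whose `i`-th digit belongs to `A i` for all `i < K` is at least `exp (- c K) g ^ K`
(`Rich`). Let `n ≤ g ^ (E K)`, `m₀ ≥ 1` and an even number `h ≥ 0` be arbitrary with `m₀ + g ^ K + h ≤ φ (n) + 1`. So the numbers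
`n ^ 2 + m` and `n ^ 2 + m + h` with `m = m₀ + t` and these `t` are in the interval `(n ^ 2, n ^ 2 + 1 + φ (n)]`.

For at least `κ V |A 0| ⋯ |A (K - 1)|` of the `m = m₀ + t`, and at least `κ |A 0| ⋯ |A (K - 1)| / K ^ 2`, the numbers `n ^ 2 + m` and
`n ^ 2 + m + h` have at most `r` prime factors, all larger than `g ^ (K / r)`, unless there is an obvious obstruction (no digit `d` in
`A 0` such that the two numbers for `m₀ + d` are prime to `g`); and for at most `C V |A 0| ⋯ |A (K - 1)|` of them both numbers are primes.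
Here `V` is the product of `1 - ν (p) / p` over the primes `p ≤ g ^ K`, where `ν (p)` is `1` if `p` divides `h`, and `2` otherwise. The
constants do not depend on `n`, `m₀`, `h` and the sets `A i`. Since `φ (n)` is at least a constant multiple of `n / log log n`, the
length `g ^ K` may be an arbitrarily small power of `n`, and `h` may be any even number up to `φ (n) - g ^ K`.
-/

set_option autoImplicit false

namespace Pool.Agent.Results.MP_36c81c_nt.EveryDifference

open Filter Finset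
open Pool.Agent.Q315.RD Pool.Agent.Q48.RD

/-- Both numbers `n ^ 2 + m`, `n ^ 2 + m + h` are in `(n ^ 2, n ^ 2 + 1 + φ (n)]` and have the property `Q`. -/
def Pair (n h : ℕ) (Q : ℕ → Prop) (m : ℕ) : Prop :=
  n ^ 2 < n ^ 2 + m ∧ n ^ 2 + m + h ≤ n ^ 2 + 1 + n.totient ∧ Q (n ^ 2 + m) ∧ Q (n ^ 2 + m + h)

/-- The product of `1 - ν (p) / p` over the primes `p ≤ y`, with `ν (p) = 1` if `p` divides `h`, and `ν (p) = 2` otherwise. -/
noncomputable def V (h y : ℕ) : ℝ := ∏ p ∈ (Icc 1 y).filter Nat.Prime, (1 - (if p ∣ h then 1 else 2) / (p : ℝ))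

/-- **Pairs of almost primes with every even difference in the interval `(n ^ 2, n ^ 2 + 1 + φ (n)]`, with restricted digits.** -/
theorem result (E : ℕ) :
    ∃ c : ℝ, 0 < c ∧ ∃ r₀ : ℕ, 2 ≤ r₀ ∧ ∀ r : ℕ, r₀ ≤ r → ∀ g : ℕ, 2 ≤ g → ∃ κ C : ℝ, 0 < κ ∧ 0 < C ∧
      ∀ᶠ K : ℕ in atTop, ∀ n m₀ h : ℕ, n ≤ g ^ (E * K) → 1 ≤ m₀ → Even h → m₀ + g ^ K + h ≤ n.totient + 1 →
        ∀ A : ℕ → Finset ℕ, Rich c g K A →
          ((∃ d ∈ A 0, Pair n h (fun l => l.Coprime g) (m₀ + d)) →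
            κ * V h (g ^ K) * choices K A ≤ count g K A (fun t => Pair n h (AlmostPrime (g ^ K) r) (m₀ + t)) ∧
            κ * choices K A / (K : ℝ) ^ 2 ≤ count g K A (fun t => Pair n h (AlmostPrime (g ^ K) r) (m₀ + t))) ∧
          (count g K A (fun t => Pair n h Nat.Prime (m₀ + t)) : ℝ) ≤ C * V h (g ^ K) * choices K A := by
  classical
  obtain ⟨c, hc, r₀, hr₀, h1⟩ := pairsH (2 * E + 1)
  refine ⟨c, hc, r₀, hr₀, fun r hr g hg => ?_⟩
  obtain ⟨κ, C, hκ, hC, h2⟩ := h1 r hr g hg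
  refine ⟨κ, C, hκ, hC, ?_⟩
  filter_upwards [h2, eventually_ge_atTop 1] with K hK hK1
  intro n m₀ h hn hm₀ hh hm A hA
  have hgK : 2 ≤ g ^ K := (show 2 ≤ g from hg).trans (Nat.le_self_pow (by omega) g)
  have htot : n.totient ≤ n := Nat.totient_le n
  have hn1 : 1 ≤ n := by
    by_contra hcon
    have : n = 0 := by omega
    subst this
    simp only [Nat.totient_zero] at hm
    omega
  have hbig : n ^ 2 + n ≤ g ^ ((2 * E + 1) * K) := by
    have hnn : n ≤ n ^ 2 := Nat.le_self_pow (by norm_num) n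
    calc n ^ 2 + n ≤ 2 * n ^ 2 := by omega
      _ ≤ g ^ K * (g ^ (E * K)) ^ 2 := Nat.mul_le_mul hgK (Nat.pow_le_pow_left hn 2)
      _ = g ^ ((2 * E + 1) * K) := by rw [← pow_mul, ← pow_add]; congr 1; ring
  obtain ⟨h4, h5⟩ := hK (n ^ 2 + m₀) h (by omega) (by omega) hh A hA
  simp only [add_assoc (n ^ 2) m₀] at h4 h5
  have hle : ∀ Q : ℕ → Prop, (count g K A (fun t => Q (n ^ 2 + (m₀ + t)) ∧ Q (n ^ 2 + (m₀ + t) + h)) : ℝ) ≤
      count g K A (fun t => Pair n h Q (m₀ + t)) := fun Q => Nat.cast_le.2 (count_mono fun t ht hQ => ⟨by omega, by omega, hQ⟩)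
  have hge : ∀ Q : ℕ → Prop, (count g K A (fun t => Pair n h Q (m₀ + t)) : ℝ) ≤
      count g K A (fun t => Q (n ^ 2 + (m₀ + t)) ∧ Q (n ^ 2 + (m₀ + t) + h)) := fun Q =>
    Nat.cast_le.2 (count_mono fun t ht hQ => hQ.2.2)
  refine ⟨fun ⟨d, hd, h6⟩ => ?_, (hge _).trans h5⟩
  have h7 := h4 ⟨d, hd, h6.2.2⟩
  exact ⟨h7.1.trans (hle _), h7.2.trans (hle _)⟩

end Pool.Agent.Results.MP_36c81c_nt.EveryDifference
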