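import Pool.Agent.Q25.UReg6

/-!
# Almost primes at the same distance above the squares of `s` integers: the laws, for every choice of the integers

Let `s ≥ 2`, `0 < η ≤ E`, `0 < θ`.  For EVERY large `X` and EVERY `s` different integers `n = κ 0, ..., κ (s - 1)` of the same
parity between `X ^ η` and `X ^ E`, call the distance `m` good if none of the `s` numbers `n ^ 2 + m`, `n = κ i`, has a prime
factor `≤ X ^ (1/r)`; for `1 ≤ m ≤ 1 + φ(n)` the number `n ^ 2 + m` lies in the interval `(n ^ 2, n ^ 2 + 1 + φ(n)]` of the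
question.  In ALL intervals of length at least `X ^ θ` the numbers of the good `m` in windows follow the Poisson law and
the gaps between the good `m` are exponentially distributed, and almost all elements of an ARBITRARY set of good `m`
(for instance of the `m` for which all `s` numbers are prime) are regular points of this set.
-/

set_option autoImplicit false

namespace Pool.Agent.Results.MP_36c81c_nt.UniformLaws

open Finset
open Pool.Agent.Q25.UReg (Good V count pois PoissonLaw GapLaw N RightOrder ConstantDensity badScales Irregular)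

/-- the coefficients of `m` in `n ^ 2 + m` -/
def co (s : ℕ) (_ : Fin s) : ℤ := 1

/-- the constant terms `n ^ 2`, `n = κ i` -/
def ct {s : ℕ} (κ : Fin s → ℕ) (i : Fin s) : ℤ := (κ i : ℤ) ^ 2

lemma adm {s : ℕ} (κ : Fin s → ℕ) (hpar : ∀ i j, κ i % 2 = κ j % 2) (p : ℕ) (hp : p.Prime) :
    ∃ m : ℤ, ∀ i, ¬ (p : ℤ) ∣ co s i * m + ct κ i := by
  have : Fact p.Prime := ⟨hp⟩
  rcases hp.eq_two_or_odd' with h2 | h2
  · subst h2
    rcases Nat.eq_zero_or_pos s with hs | hs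
    · subst hs
      exact ⟨0, fun i => i.elim0⟩
    · refine ⟨1 - (κ ⟨0, hs⟩ : ℤ), fun i h => ?_⟩
      unfold co ct at h
      have h3 := hpar i ⟨0, hs⟩
      have h4 : (2 : ℤ) ∣ (κ i : ℤ) ^ 2 - κ i := by
        have e : (κ i : ℤ) ^ 2 - κ i = (κ i : ℤ) * ((κ i : ℤ) - 1) := by ring
        rw [e]
        exact even_iff_two_dvd.1 (Int.even_mul_pred_self _)
      have h5 : (2 : ℤ) ∣ (κ i : ℤ) - κ ⟨0, hs⟩ := by omega
      have e : (1 : ℤ) = (1 * (1 - (κ ⟨0, hs⟩ : ℤ)) + (κ i : ℤ) ^ 2) - ((κ i : ℤ) ^ 2 - κ i) - ((κ i : ℤ) - κ ⟨0, hs⟩) := by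
        ring
      have h6 : (2 : ℤ) ∣ 1 := by
        rw [e]
        exact dvd_sub (dvd_sub (by exact_mod_cast h) h4) h5
      omega
  · have hF : ringChar (ZMod p) ≠ 2 := by
      rw [ZMod.ringChar_zmod_n]
      rintro rfl
      exact (Nat.not_odd_iff_even.2 even_two) h2
    obtain ⟨q, hq⟩ := FiniteField.exists_nonsquare hF
    refine ⟨((-q).val : ℤ), fun i h => hq ?_⟩
    have h3 : (((co s i * ((-q).val : ℤ) + ct κ i : ℤ)) : ZMod p) = 0 :=
      (ZMod.intCast_zmod_eq_zero_iff_dvd _ _).2 h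
    unfold co ct at h3
    push_cast at h3
    rw [ZMod.natCast_zmod_val] at h3
    refine ⟨(κ i : ZMod p), ?_⟩
    linear_combination -h3

/-- two different squares are far apart -/
lemma sq_far {a b w : ℤ} (ha : w ≤ a) (hb : w ≤ b) (hw : 1 ≤ w) (hab : a < b) : w < b ^ 2 - a ^ 2 := by
  have e : b ^ 2 - a ^ 2 = (b - a) * (a + b) := by ring
  rw [e]
  have h1 : 1 ≤ b - a := by omega
  have h2 : 2 * w ≤ a + b := by omega
  nlinarith

lemma two {s : ℕ} (hs : 2 ≤ s) (κ : Fin s → ℕ) (hκ : Function.Injective κ) (h1 : ∀ i, 1 ≤ κ i) :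
    Pool.Agent.Q25.UReg.TwoForms (co s) (ct κ) := by
  refine ⟨⟨0, by omega⟩, ⟨1, by omega⟩, ?_, ?_⟩
  · rintro ⟨-, h⟩
    have hne : κ ⟨0, by omega⟩ ≠ κ ⟨1, by omega⟩ := fun h => by
      have := hκ h
      simp at this
    unfold ct at h
    have ha : (1 : ℤ) ≤ κ ⟨0, by omega⟩ := by exact_mod_cast h1 _
    have hb : (1 : ℤ) ≤ κ ⟨1, by omega⟩ := by exact_mod_cast h1 _
    rcases lt_or_gt_of_ne hne with h3 | h3
    · have := sq_far ha hb le_rfl (by exact_mod_cast h3)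
      omega
    · have := sq_far hb ha le_rfl (by exact_mod_cast h3)
      omega
  · rintro ⟨h, -⟩
    unfold co at h
    norm_num at h

lemma noTr {s : ℕ} (κ : Fin s → ℕ) (hκ : Function.Injective κ) (U : ℝ) (hU1 : 1 ≤ U) (hU : ∀ i, U ≤ κ i) :
    Pool.Agent.Q25.UReg.NoTranslates2 (co s) (ct κ) U := by
  intro i j t ht htU
  have ht' : (1 : ℤ) ≤ t := by exact_mod_cast ht
  have hi : (t : ℤ) ≤ κ i := by exact_mod_cast htU.trans (hU i)
  have hj : (t : ℤ) ≤ κ j := by exact_mod_cast htU.trans (hU j)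
  unfold co ct
  refine ⟨fun h => ?_, fun h => ?_⟩
  · have h2 := h.2
    rcases lt_trichotomy (κ i) (κ j) with h3 | h3 | h3
    · have := sq_far hi hj ht' (by exact_mod_cast h3)
      omega
    · rw [h3] at h2
      omega
    · have := sq_far hj hi ht' (by exact_mod_cast h3)
      omega
  · have := h.1
    omega

lemma bounds {s : ℕ} (κ : Fin s → ℕ) (X : ℕ) (E : ℝ) (hE : 0 < E) (hX : 4 ≤ X)
    (hκE : ∀ i, (κ i : ℝ) ≤ (X : ℝ) ^ E) :
    (∀ i, |(co s i : ℝ)| ≤ (X : ℝ) ^ (2 * E + 1)) ∧ ∀ i, |(ct κ i : ℝ)| ≤ (X : ℝ) ^ (2 * E + 1) := by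
  have hX4 : (4 : ℝ) ≤ X := by exact_mod_cast hX
  have e : (X : ℝ) ^ (2 * E + 1) = ((X : ℝ) ^ E) ^ 2 * X := by
    rw [Real.rpow_add (by linarith), Real.rpow_one, two_mul, Real.rpow_add (by linarith), sq]
  constructor
  · intro i
    unfold co
    simpa using Real.one_le_rpow (by linarith : (1 : ℝ) ≤ X) (by linarith : (0 : ℝ) ≤ 2 * E + 1)
  · intro i
    unfold ct
    push_cast
    rw [abs_of_nonneg (by positivity), e]
    have h4 : (κ i : ℝ) ^ 2 ≤ ((X : ℝ) ^ E) ^ 2 := pow_le_pow_left₀ (by positivity) (hκE i) 2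
    nlinarith [mul_le_mul h4 hX4 (by norm_num) (by positivity), sq_nonneg (κ i : ℝ)]

/-- **The laws of the distances at which there are almost primes above the squares of `s` integers at once.** -/
theorem result (s : ℕ) (hs : 2 ≤ s) (E η θ : ℝ) (hE : 0 < E) (hη : 0 < η) (hθ : 0 < θ) :
    (∀ (l₀ : ℕ) (x₀ ε : ℝ), 0 < ε → ∃ r₀ : ℕ, ∀ r : ℕ, r₀ ≤ r → ∃ X₀ : ℕ, ∀ X : ℕ, X₀ ≤ X →
      ∀ κ : Fin s → ℕ, Function.Injective κ → (∀ i j, κ i % 2 = κ j % 2) →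
        (∀ i, (X : ℝ) ^ η ≤ κ i ∧ (κ i : ℝ) ≤ (X : ℝ) ^ E) →
        ∀ Z Y : ℕ, (X : ℝ) ^ θ ≤ Y →
        PoissonLaw (co s) (ct κ) r X Z Y x₀ ε ∧ GapLaw (co s) (ct κ) r X Z Y l₀ x₀ ε) ∧
    ∃ r₀ : ℕ, ∀ r : ℕ, r₀ ≤ r → ∀ ε : ℝ, 0 < ε → ∃ c : ℝ, 0 < c ∧ ∀ δ : ℝ, 0 < δ → ∃ B X₀ : ℕ,
      ∀ X : ℕ, X₀ ≤ X → ∀ κ : Fin s → ℕ, Function.Injective κ → (∀ i j, κ i % 2 = κ j % 2) →
        (∀ i, 1 ≤ κ i ∧ (κ i : ℝ) ≤ (X : ℝ) ^ E) →
        ∀ u Y : ℕ, (X : ℝ) ^ θ ≤ Y → Y ≤ X → Y ≤ u →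
        ∀ A : Set ℕ, (∀ m ∈ A, Good (co s) (ct κ) r X m) →
          (N (Irregular A (V (co s) (ct κ) r X) c δ B Y) u (u + Y) : ℝ) ≤
            ε * (Y * V (co s) (ct κ) r X) := by
  constructor
  · intro l₀ x₀ ε hε
    obtain ⟨r₀, _, h⟩ := Pool.Agent.Q25.UReg.lin_laws2 s (2 * E + 1) η θ (by linarith) hη hθ l₀ x₀ ε hε
    refine ⟨r₀, fun r hr => ?_⟩
    obtain ⟨X₀, hX₀⟩ := Filter.eventually_atTop.1 ((h r hr).and (Filter.eventually_ge_atTop 4))
    refine ⟨X₀, fun X hX κ hκ hpar hκX Z Y hY => ?_⟩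
    obtain ⟨h1, h2⟩ := hX₀ X hX
    have hX1 : (1 : ℝ) ≤ X := by exact_mod_cast (by omega : 1 ≤ X)
    have hU1 : (1 : ℝ) ≤ (X : ℝ) ^ η := Real.one_le_rpow hX1 hη.le
    have hκ1 : ∀ i, 1 ≤ κ i := fun i => by exact_mod_cast hU1.trans (hκX i).1
    have hb := bounds κ X E hE h2 (fun i => (hκX i).2)
    exact h1 (co s) (ct κ) (fun _ => one_ne_zero) hb.1 hb.2 (adm κ hpar) (two hs κ hκ hκ1)
      (noTr κ hκ _ hU1 (fun i => (hκX i).1)) Z Y hY
  · obtain ⟨r₀, _, h⟩ := Pool.Agent.Q25.UReg.lin_reg2 s (2 * E + 1) θ (by linarith) hθ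
    refine ⟨r₀, fun r hr ε hε => ?_⟩
    obtain ⟨c, hc, h1⟩ := h r hr ε hε
    refine ⟨c, hc, fun δ hδ => ?_⟩
    obtain ⟨B, hB⟩ := h1 δ hδ
    obtain ⟨X₀, hX₀⟩ := Filter.eventually_atTop.1 (hB.and (Filter.eventually_ge_atTop 4))
    refine ⟨B, X₀, fun X hX κ hκ hpar hκX u Y hXY hYX hYu A hA => ?_⟩
    obtain ⟨h1, h2⟩ := hX₀ X hX
    have hb := bounds κ X E hE h2 (fun i => (hκX i).2)
    exact h1 (co s) (ct κ) (fun _ => one_ne_zero) hb.1 hb.2 (adm κ hpar) (two hs κ hκ (fun i => (hκX i).1))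
      u Y hXY hYX hYu A hA

end Pool.Agent.Results.MP_36c81c_nt.UniformLaws
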